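import Pool.Agent.Run7.h241.CS.Iface
import Pool.Agent.N855.SG.Cert

/-!
Piece CNT2 of helper241's project CS: the number of the real solutions of `f = - v`.
-/

set_option autoImplicit false
set_option linter.all false

namespace Run7.h224.CS

open Polynomial Pool.Agent.R713.AS Pool.Agent.N855.SG
open Run7.h241.CS (S_CNT2)

section

variable {n : ℕ} (A : Fin n → ℝ)

theorem hroot (j : Fin n) : (PP A).eval (A j) = 0 := by
  rw [eval_PP]
  exact Finset.prod_eq_zero (Finset.mem_univ j) (sub_self _)

theorem prd_lt {k : Fin n} (hk : k.val ≠ 0) : prd k < k := by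
  rw [Fin.lt_def]
  show k.val - 1 < k.val
  omega

theorem piece_eq (hA : StrictMono A) {k : Fin n} (hk0 : k.val ≠ 0) :
    {x | x < A k ∧ ∀ i, i < k → A i < x} = Set.Ioo (A (prd k)) (A k) := by
  ext x
  simp only [Set.mem_ofPred_eq, Set.mem_Ioo]
  constructor
  · rintro ⟨h3, h4⟩
    exact ⟨h4 _ (prd_lt hk0), h3⟩
  · rintro ⟨h3, h4⟩
    refine ⟨h4, fun i hi => lt_of_le_of_lt ?_ h3⟩
    apply hA.monotone
    rw [Fin.le_def]
    show i.val ≤ k.val - 1
    have := Fin.lt_def.1 hi
    omega

theorem neg_gap (hA : StrictMono A) {k : Fin n} (hk0 : k.val ≠ 0) (hp : (n - k.val) % 2 = 1)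
    {x : ℝ} (h1 : A (prd k) < x) (h2 : x < A k) : (PP A).eval x < 0 := by
  have hx : x ∈ {x | x < A k ∧ ∀ i, i < k → A i < x} := by
    rw [piece_eq A hA hk0]
    exact ⟨h1, h2⟩
  have h3 := sign A (fun i j h => hA h) k x hx.1 hx.2
  have hodd : Odd (n - k.val) := Nat.odd_iff.2 hp
  rw [hodd.neg_one_pow] at h3
  rw [eval_PP]
  linarith

theorem exists_depth (hA : StrictMono A) (k : Fin n) : ∃ D : ℝ, k.val ≠ 0 → (n - k.val) % 2 = 1 →
    0 < D ∧ ∃ m : ℝ, A (prd k) < m ∧ m < A k ∧ (derivative (PP A)).eval m = 0 ∧
      (PP A).eval m = - D ∧ ∀ x, A (prd k) < x → x < A k → - D ≤ (PP A).eval x := by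
  by_cases hk0 : k.val = 0
  · exact ⟨0, fun h => absurd hk0 h⟩
  by_cases hp : (n - k.val) % 2 = 1
  swap
  · exact ⟨0, fun _ h => absurd h hp⟩
  have hlt : A (prd k) < A k := hA (prd_lt hk0)
  have hcont : Continuous fun z => (PP A).eval z := (PP A).continuous
  obtain ⟨m, hm, hmin⟩ := isCompact_Icc.exists_isMinOn (Set.nonempty_Icc.2 hlt.le)
    (hcont.continuousOn (s := Set.Icc (A (prd k)) (A k)))
  have hmid := neg_gap A hA hk0 hp (x := (A (prd k) + A k) / 2) (by linarith) (by linarith)
  have hmval : (PP A).eval m < 0 := by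
    have := hmin (show (A (prd k) + A k) / 2 ∈ Set.Icc (A (prd k)) (A k) from
      ⟨by linarith, by linarith⟩)
    simp only at this
    exact lt_of_le_of_lt this hmid
  have h1 : A (prd k) < m := lt_of_le_of_ne hm.1 fun h => by
    rw [← h, hroot] at hmval
    exact lt_irrefl _ hmval
  have h2 : m < A k := lt_of_le_of_ne hm.2 fun h => by
    rw [h, hroot] at hmval
    exact lt_irrefl _ hmval
  refine ⟨-(PP A).eval m, fun _ _ => ⟨by linarith, m, h1, h2, ?_, by ring, fun x hx1 hx2 => ?_⟩⟩
  · have hloc : IsLocalMin (fun z => (PP A).eval z) m :=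
      hmin.isLocalMin (Icc_mem_nhds h1 h2)
    exact hloc.hasDerivAt_eq_zero ((PP A).hasDerivAt m)
  · rw [neg_neg]
    exact hmin ⟨hx1.le, hx2.le⟩

open Classical in
theorem total (hA : StrictMono A) (hn : 1 ≤ n) (D : Fin n → ℝ)
    (hD : ∀ k, k.val ≠ 0 → (n - k.val) % 2 = 1 →
      0 < D k ∧ ∃ m : ℝ, A (prd k) < m ∧ m < A k ∧ (derivative (PP A)).eval m = 0 ∧
      (PP A).eval m = - D k ∧ ∀ x, A (prd k) < x → x < A k → - D k ≤ (PP A).eval x)
    (v : ℝ) (hv : 0 < v) (hne : ∀ k, k.val ≠ 0 → (n - k.val) % 2 = 1 → D k ≠ v) :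
    {x : ℝ | (PP A).eval x = - v}.ncard = ∑ k : Fin n,
      if (n - k.val) % 2 = 1 then (if k.val = 0 then 1 else if v < D k then 2 else 0) else 0 := by
  have : NeZero n := ⟨by omega⟩
  have : Nonempty (Fin n) := ⟨0⟩
  refine ncard_pieces (κ := Fin n) _ ?_ (fun j => {x | x < A j ∧ ∀ i, i < j → A i < x}) ?_ ?_ _ ?_
  · have h1 : PP A + C v ≠ 0 := by
      intro h
      have h2 := congrArg (eval (A 0)) h
      rw [eval_add, eval_C, eval_zero, hroot] at h2
      linarith
    refine (Polynomial.finite_setOfPred_isRoot h1).subset fun x hx => ?_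
    simp only [Set.mem_ofPred_eq, IsRoot.def, eval_add, eval_C] at hx ⊢
    linarith
  · intro x hx
    simp only [Set.mem_ofPred_eq] at hx
    rw [eval_PP] at hx
    have h1 : ∃ i, x < A i := by
      by_contra hcon
      push Not at hcon
      have : 0 ≤ ∏ i, (x - A i) := Finset.prod_nonneg fun i _ => by
        have := hcon i
        linarith
      linarith
    obtain ⟨i0, hi0⟩ := h1
    obtain ⟨j, hj, hmin⟩ := WellFounded.has_min (wellFounded_lt (α := Fin n)) {i | x < A i} ⟨i0, hi0⟩
    refine ⟨j, hj, fun i hi => ?_⟩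
    have h2 : A i ≤ x := not_lt.1 fun h3 => hmin i h3 hi
    refine lt_of_le_of_ne h2 fun h3 => ?_
    rw [Finset.prod_eq_zero (Finset.mem_univ i) (by rw [h3, sub_self])] at hx
    linarith
  · rintro k k' x ⟨hk1, hk2⟩ ⟨hk1', hk2'⟩
    rcases lt_trichotomy k k' with h3 | h3 | h3
    · exact absurd (hk2' k h3) (not_lt.2 hk1.le)
    · exact h3
    · exact absurd (hk2 k' h3) (not_lt.2 hk1'.le)
  · intro k
    by_cases hp : (n - k.val) % 2 = 1
    · rw [if_pos hp]
      by_cases hk0 : k.val = 0
      · rw [if_pos hk0]
        have hI : {x | x < A k ∧ ∀ i, i < k → A i < x} = Set.Iio (A k) := by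
          ext x
          simp only [Set.mem_ofPred_eq, Set.mem_Iio, and_iff_left_iff_imp]
          intro _ i hi
          exact absurd hi (by rw [Fin.lt_def]; omega)
        rw [hI]
        have hg : ∀ i, A k ≤ A i := fun i => hA.monotone (by rw [Fin.le_def]; omega)
        refine left' A (A k) (A k - (1 + v)) v hg (hroot A k) hv (by linarith) ?_
        rw [eval_PP]
        have h3 := sign A (fun i j h => hA h) k (A k - (1 + v)) (by linarith) (fun i hi => absurd hi (by
          rw [Fin.lt_def]; omega))
        have hodd : Odd (n - k.val) := Nat.odd_iff.2 hp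
        rw [hodd.neg_one_pow] at h3
        have h4 : 1 + v ≤ |∏ i, (A k - (1 + v) - A i)| := by
          rw [Finset.abs_prod]
          calc 1 + v = |A k - (1 + v) - A k| * 1 := by
                rw [mul_one, abs_of_nonpos (by linarith)]; ring
            _ ≤ |A k - (1 + v) - A k| * ∏ i ∈ Finset.univ.erase k, |A k - (1 + v) - A i| := by
                refine mul_le_mul_of_nonneg_left ?_ (abs_nonneg _)
                have : ∀ i ∈ Finset.univ.erase k, (1 : ℝ) ≤ |A k - (1 + v) - A i| := fun i _ => by
                  have := hg i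
                  rw [abs_of_nonpos (by linarith)]
                  linarith
                calc (1 : ℝ) = ∏ i ∈ Finset.univ.erase k, (1 : ℝ) := by simp
                  _ ≤ _ := Finset.prod_le_prod (fun _ _ => zero_le_one) this
            _ = _ := Finset.mul_prod_erase Finset.univ (fun i => |A k - (1 + v) - A i|)
                (Finset.mem_univ k)
        rw [abs_of_neg (by linarith)] at h4
        linarith
      · rw [if_neg hk0, piece_eq A hA hk0]
        obtain ⟨hD0, m, hm1, hm2, hm3, hm4, hm5⟩ := hD k hk0 hp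
        by_cases hvD : v < D k
        · rw [if_pos hvD]
          refine gap A (A (prd k)) (A k) m v ?_ (hroot A _) (hroot A _) hm1 hm2 hv ?_
          · intro i
            rcases lt_or_ge i k with h3 | h3
            · left
              apply hA.monotone
              rw [Fin.le_def]
              show i.val ≤ k.val - 1
              have := Fin.lt_def.1 h3
              omega
            · right
              exact hA.monotone h3
          · rw [hm4]
            linarith
        · rw [if_neg hvD]
          have hset : {x : ℝ | (PP A).eval x = - v} ∩ Set.Ioo (A (prd k)) (A k) = ∅ := by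
            rw [Set.eq_empty_iff_forall_notMem]
            rintro x ⟨hx, hx1, hx2⟩
            simp only [Set.mem_ofPred_eq] at hx
            have h5 := hm5 x hx1 hx2
            rw [hx] at h5
            have h6 := hne k hk0 hp
            have h7 : D k ≤ v := not_lt.1 hvD
            exact h6 (le_antisymm h7 (by linarith))
          rw [hset, Set.ncard_empty]
    · rw [if_neg hp]
      have hset : {x : ℝ | (PP A).eval x = - v} ∩ {x | x < A k ∧ ∀ i, i < k → A i < x} = ∅ := by
        rw [Set.eq_empty_iff_forall_notMem]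
        rintro x ⟨hx, hx1, hx2⟩
        simp only [Set.mem_ofPred_eq] at hx
        rw [eval_PP] at hx
        have h3 := sign A (fun i j h => hA h) k x hx1 hx2
        have heven : Even (n - k.val) := by
          rw [Nat.even_iff]
          omega
        rw [heven.neg_one_pow, one_mul] at h3
        linarith
      rw [hset, Set.ncard_empty]

end

theorem t_CNT2 : S_CNT2 := by
  classical
  intro n A hn hA
  choose D hD using exists_depth A hA
  let I := {i : Fin n // (i : ℕ) + 1 < n ∧ Even (n - (i : ℕ))}
  let nx : I → Fin n := fun i => ⟨(i.1 : ℕ) + 1, i.2.1⟩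
  have hnx0 : ∀ i : I, (nx i).val ≠ 0 := fun i => Nat.succ_ne_zero _
  have hnxp : ∀ i : I, (n - (nx i).val) % 2 = 1 := by
    intro i
    have h1 := i.2.1
    have h2 := i.2.2
    rw [Nat.even_iff] at h2
    show (n - ((i.1 : ℕ) + 1)) % 2 = 1
    omega
  have hprd : ∀ i : I, prd (nx i) = i.1 := fun i => Fin.ext (by
    show (i.1 : ℕ) + 1 - 1 = i.1
    omega)
  refine ⟨fun i => D (nx i), fun i => (hD _ (hnx0 i) (hnxp i)).1, fun i => ?_, fun v hv hne => ?_⟩
  · obtain ⟨_, m, h1, h2, h3, h4, _⟩ := hD _ (hnx0 i) (hnxp i)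
    rw [hprd] at h1
    exact ⟨m, h1, fun h => h2, h3, h4⟩
  · have hne' : ∀ k : Fin n, k.val ≠ 0 → (n - k.val) % 2 = 1 → D k ≠ v := by
      intro k hk0 hp
      have hk := k.isLt
      let i : I := ⟨prd k, by
        have : ((prd k : Fin n) : ℕ) = k.val - 1 := rfl
        rw [this]
        refine ⟨by omega, ?_⟩
        rw [Nat.even_iff]
        omega⟩
      have h1 : nx i = k := Fin.ext (by
        show k.val - 1 + 1 = k.val
        omega)
      have h2 : D (nx i) ≠ v := hne i
      rwa [h1] at h2
    have h1 := total A hA hn D hD v hv hne'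
    change {x : ℝ | (PP A).eval x = - v}.ncard = _
    rw [h1]
    have : NeZero n := ⟨by omega⟩
    rw [← Finset.add_sum_erase _ _ (Finset.mem_univ (0 : Fin n))]
    congr 1
    · have h0 : ((0 : Fin n) : ℕ) = 0 := rfl
      rw [h0, Nat.sub_zero, if_pos rfl]
      split_ifs with h
      · exact h.symm
      · omega
    · have h2 : ∀ k ∈ Finset.univ.erase (0 : Fin n),
          (if (n - k.val) % 2 = 1 then (if k.val = 0 then 1 else if v < D k then 2 else 0) else 0) =
          if (n - k.val) % 2 = 1 ∧ v < D k then 2 else 0 := by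
        intro k hk
        have hk0 : k.val ≠ 0 := by
          intro h
          exact (Finset.mem_erase.1 hk).1 (Fin.ext h)
        by_cases h3 : (n - k.val) % 2 = 1
        · by_cases h4 : v < D k <;> simp [h3, h4, hk0]
        · simp [h3]
      rw [Finset.sum_congr rfl h2, ← Finset.sum_filter, Finset.sum_const, smul_eq_mul, mul_comm]
      congr 1
      have h3 : {i : I | v < D (nx i)}.ncard = (Finset.univ.filter fun i : I => v < D (nx i)).card := by
        rw [← Set.ncard_coe_finset]
        congr 1
        ext i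
        simp
      rw [h3]
      symm
      refine Finset.card_bij (fun i _ => nx i) ?_ ?_ ?_
      · intro i hi
        simp only [Finset.mem_filter, Finset.mem_univ, true_and] at hi
        simp only [Finset.mem_filter, Finset.mem_erase, Finset.mem_univ, and_true]
        refine ⟨fun h => hnx0 i (by rw [h]; rfl), hnxp i, hi⟩
      · intro i _ j _ h
        apply Subtype.ext
        rw [← hprd i, ← hprd j, h]
      · intro k hk
        simp only [Finset.mem_filter, Finset.mem_erase, Finset.mem_univ, and_true] at hk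
        obtain ⟨hk0, hp, hkD⟩ := hk
        have hk0' : k.val ≠ 0 := fun h => hk0 (Fin.ext h)
        have hkn := k.isLt
        let i : I := ⟨prd k, by
          have : ((prd k : Fin n) : ℕ) = k.val - 1 := rfl
          rw [this]
          refine ⟨by omega, ?_⟩
          rw [Nat.even_iff]
          omega⟩
        have h1 : nx i = k := Fin.ext (by
          show k.val - 1 + 1 = k.val
          omega)
        refine ⟨i, ?_, h1⟩
        simp only [Finset.mem_filter, Finset.mem_univ, true_and]
        rw [h1]
        exact hkD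

end Run7.h224.CS
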